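import Pool.Agent.Run7.h421.RSi

/-!
# Slice surfaces of any genus and functions other than the height

The surfaces `F` (`TSurf`) are compact and smoothly embedded in the half-space `x₃ ≥ 0` of Euclidean
four-space, with boundary in the hyperplane `x₃ = 0` and transversal to it (any genus, any number of
components, no collar). If the height `x₃` is a Morse function on `F` without local minimum in the
interior, `F` is a ribbon surface. We show that the height can be replaced by other functions, and we
bound the number of the local minima by curvatures.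

A smooth function `G` on four-space is good on `F` (`GoodS`) if it has, as a function on `F`, no
critical points on the boundary, and if at each critical point there is a direction with negative
second derivative, or the second derivative is positive definite; `cupsS F G` is the set of the
critical points of the second kind.

1. Let `dG(w) ≥ 0` for one vector `w` with `w₃ > 0`, and let `G` be good on `F`. Then `F` can be pushed
   along the parallel lines of direction `w`, by an ambient isotopy which is the identity on the
   hyperplane `x₃ = 0` (`PushS`), to a surface whose height is a Morse function with at most as many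
   local minima as `G` has cups on `F`. Special case `w = e₃`: functions on the projection of `F` to
   three-space.
2. The same for every linear function `⟪y, ·⟫` (also `-x₃`). Almost every linear function is good.
3. So every surface with a Morse height can be pushed to a surface with a Morse height with at most as
   many local minima as the first surface has local maxima.
4. Curvature: let `lowS F` (`uppS F`) be the integral of `det II_n` over `F` and over the unit normal
   vectors `n` with `n₃ > 0` for which `II_n` is positive (negative) definite. If one of the two is less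
   than `π² (m + 1)`, then `F` can be pushed to a surface with a Morse height with at most `m` local
   minima; for `m = 0` to a ribbon surface.
5. For every isotopy class of surfaces and every `m`, equivalent are: it contains a surface with a Morse
   height with at most `m` local minima; one with `lowS < π² (m + 1)`; one with
   `min lowS uppS < π² (m + 1)`; for every `η > 0` one with `lowS ≤ π² m + η`; one with a good function
   as in (1) with at most `m` cups; one on which `⟪y, ·⟫` is good with at most `m` cups (for every fixed
   `y` which is not a nonpositive multiple of `e₃`).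
6. Let `S g` be the type of the surfaces of genus `g`, and `g` the slice genus of `K`. The ribbon genus
   of `K` is equal to `g` if and only if `K` bounds a surface of genus `g` with a good linear function
   without cups, or with a good function as in (1) without cups, or with one of the two curvatures less
   than `π²`.

The proof of (1): the new height is `h + (R G + T) (1 - exp (- h / ε))`. The proofs of (4) and (5) use
the area formula of the library of helper503 and helper15.
-/

set_option autoImplicit false

namespace Pool.Agent.Results.MP_177a0e_gt.AnyFunctionSurfaces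

open scoped ContDiff RealInnerProductSpace ENNReal
open Run7.h421.RS
open Run7.h421.RP (R4)
open Pool.Agent.N15.SF (lowS uppS)
open MeasureTheory

/-- The vertical unit vector. -/
noncomputable def e3 : R4 := EuclideanSpace.single 3 1

theorem result :
    -- (1) functions which grow in some direction
    (∀ F : Set R4, TSurf F → ∀ (G : R4 → ℝ) (w : R4), ContDiff ℝ ∞ G → 0 < w 3 →
      (∀ x, 0 ≤ fderiv ℝ G x w) → GoodS F G →
      ∃ f : R4 → ℝ, PushS F w f ∧ MorseS ((fun x => x + f x • w) '' F) ∧
        (minS ((fun x => x + f x • w) '' F)).encard ≤ (cupsS F G).encard) ∧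
    -- (2) linear functions
    (∀ F : Set R4, TSurf F →
      (∀ y : R4, GoodS F (fun x => ⟪y, x⟫) →
        ∃ (w : R4) (f : R4 → ℝ), 0 < w 3 ∧ PushS F w f ∧ MorseS ((fun x => x + f x • w) '' F) ∧
          (minS ((fun x => x + f x • w) '' F)).encard ≤ (cupsS F (fun x => ⟪y, x⟫)).encard) ∧
      ∀ᵐ y : R4, GoodS F (fun x => ⟪y, x⟫)) ∧
    -- (3) minima and maxima
    (∀ F : Set R4, TSurf F → MorseS F →
      ∃ (w : R4) (f : R4 → ℝ), 0 < w 3 ∧ PushS F w f ∧ MorseS ((fun x => x + f x • w) '' F) ∧
        (minS ((fun x => x + f x • w) '' F)).encard ≤ (maxS F).encard) ∧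
    -- (4) curvature
    (∀ F : Set R4, TSurf F → ∀ m : ℕ,
      min (lowS F) (uppS F) < ENNReal.ofReal (Real.pi ^ 2 * (m + 1)) →
      ∃ (w : R4) (f : R4 → ℝ), 0 < w 3 ∧ PushS F w f ∧ MorseS ((fun x => x + f x • w) '' F) ∧
        (minS ((fun x => x + f x • w) '' F)).encard ≤ m) ∧
    -- (5) isotopy classes
    (∀ F : Set R4, TSurf F → ∀ (m : ℕ) (y : R4), (∀ c : ℝ, c ≤ 0 → y ≠ c • e3) →
      List.TFAE [
        ∃ F', IsotopicS F F' ∧ MorseS F' ∧ (minS F').encard ≤ m,
        ∃ F', IsotopicS F F' ∧ lowS F' < ENNReal.ofReal (Real.pi ^ 2 * (m + 1)),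
        ∃ F', IsotopicS F F' ∧ min (lowS F') (uppS F') < ENNReal.ofReal (Real.pi ^ 2 * (m + 1)),
        ∀ η : ℝ, 0 < η → ∃ F', IsotopicS F F' ∧ lowS F' ≤ ENNReal.ofReal (Real.pi ^ 2 * m + η),
        ∃ F', IsotopicS F F' ∧ GoodS F' (fun x => ⟪y, x⟫) ∧
          (cupsS F' (fun x => ⟪y, x⟫)).encard ≤ m,
        ∃ (F' : Set R4) (G : R4 → ℝ) (w : R4), IsotopicS F F' ∧ ContDiff ℝ ∞ G ∧ 0 < w 3 ∧
          (∀ x, 0 ≤ fderiv ℝ G x w) ∧ GoodS F' G ∧ (cupsS F' G).encard ≤ m]) ∧
    -- (6) the ribbon genus
    (∀ (S : ℕ → Type) [∀ g, TopologicalSpace (S g)] (K : Set R4) (g : ℕ),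
      IsLeast {g | ∃ F, Bounds (S g) K F} g →
      List.TFAE [
        IsLeast {g | ∃ F, Bounds (S g) K F ∧ MorseS F ∧ minS F = ∅} g,
        ∃ (F : Set R4) (y : R4), Bounds (S g) K F ∧ GoodS F (fun x => ⟪y, x⟫) ∧
          cupsS F (fun x => ⟪y, x⟫) = ∅,
        ∃ (F : Set R4) (G : R4 → ℝ) (w : R4), Bounds (S g) K F ∧ ContDiff ℝ ∞ G ∧ 0 < w 3 ∧
          (∀ x, 0 ≤ fderiv ℝ G x w) ∧ GoodS F G ∧ cupsS F G = ∅,
        ∃ F, Bounds (S g) K F ∧ min (lowS F) (uppS F) < ENNReal.ofReal (Real.pi ^ 2)]) := by
  refine ⟨fun F h G w hG hw hv hg => main_dirS h hG hw hv hg, fun F h => ⟨fun y hg => linS h hg, ?_⟩,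
    fun F h hM => turnS h hM, fun F h m hK => curv_push h hK, fun F h m y hy => ?_,
    fun S _ K g hg => genusS S K g hg⟩
  · obtain ⟨Z, hZ, h2⟩ := ae_good h
    have h3 : volume (Z ∪ {0}) = 0 := measure_union_null hZ (measure_singleton 0)
    have h4 : ∀ᵐ y : R4, y ∉ Z ∪ {0} := measure_eq_zero_iff_ae_notMem.1 h3
    filter_upwards [h4] with y hy
    have := h2 y (fun h => hy (Or.inl h)) (fun h => hy (Or.inr h)) 1 one_ne_zero
    simpa only [one_smul] using this
  · have h1 := tfaeS h m
    tfae_have 1 ↔ 2 := h1.out 0 1
    tfae_have 1 ↔ 3 := h1.out 0 2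
    tfae_have 1 ↔ 4 := h1.out 0 3
    tfae_have 1 ↔ 5 := char_linS h m hy
    tfae_have 1 ↔ 6 := char_funS h m
    tfae_finish

end Pool.Agent.Results.MP_177a0e_gt.AnyFunctionSurfaces
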