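import Pool.Agent.Run7.h233.MC.Disc6

/-!
# A Fáry–Milnor theorem for slice discs

By the theorem of Fáry and Milnor a closed curve in three-space of total curvature less than `4 π` is
unknotted. We prove an analogue for slice discs: *a knot which bounds a slice disc of total curvature
less than `2 π²` is unknotted.* So every slice disc of a knotted curve has total curvature at least
`2 π²`, twice the infimum `π²` for the trivial knot.

A knot `K` (`Knot`) is a smooth oriented closed curve without double points in Euclidean three-space,
which is identified with the hyperplane `x₃ = 0` of four-space (`inc0`). A slice disc `F` of `K`
(`IsSliceDisc K F`) is a compact smooth surface in the half-space `x₃ ≥ 0`, vertical near the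
boundary (`HSurf`), which is a disc with boundary `K`.

The lower total curvature `lowS` (upper total curvature `uppS`) is the integral, over the surface and
over the unit normal vectors `n` with `n₃ > 0`, of the determinant of the second fundamental form
`II_n`, taken where `II_n` is positive definite (negative definite). The integral over a surface is
the least value of the sum of the integrals over countably many parametrised pieces which cover it.
The total curvature is `lowS + uppS`; parts of the surface where `II_n` is indefinite do not count.

`Unknotted K`: there is an ambient isotopy of three-space, a smooth family of diffeomorphisms `A_t`
with `A_0 = id`, such that `A_1(K)` is a curve whose image is the round unit circle in a plane (up to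
a reparametrisation homotopic to the identity).

The proof. By the theorem of Milnor type of the starting library (`Pool.Agent.N15.SF`) there is a
slice disc with a Morse height which has only one extremum in the interior, the maximum. It has no
saddles: the height on the disc is extended to a proper function on the plane with one extremum, so
that its sublevel and superlevel sets are connected, and at a saddle there would be two closed
curves in the plane which cross once (`no_cross`, by continuous logarithms). The flow of a vector
field of height speed one, tangent to the disc outside of a neighbourhood of the maximum, moves `K`
to a small level curve around the maximum, and this curve is moved to a round circle by straight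
line isotopies: linearisation, radial projection, linear maps.
-/

set_option autoImplicit false

namespace Pool.Agent.Results.MP_177a0e_gt.FaryMilnorForSliceDiscs

open scoped ENNReal
open Pool.Agent.Y503.RB Pool.Agent.N15.SF Pool.Agent.Run7.h233.MC

/-- **Fáry–Milnor theorem for slice discs**: a knot which bounds a slice disc of total curvature less
than `2 π²` is unknotted. -/
theorem result (K : Knot) (F : Set E4) (hF : IsSliceDisc K F)
    (hc : lowS F + uppS F < ENNReal.ofReal (2 * Real.pi ^ 2)) : Unknotted K :=
  unknot_of_curv hF hc

end Pool.Agent.Results.MP_177a0e_gt.FaryMilnorForSliceDiscs
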