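import Pool.Agent.Run7.h822.HM.Surf

/-!
# Surfaces in hyperbolic four-space and the ribbon genus

The open unit ball of Euclidean four-space carries the hyperbolic metric `4 |dx|² / (1 - |x|²)²`.
`PSurf F`: `F` is a compact smooth surface, properly and transversally embedded in the closed unit
ball. `MorseSurf F m`: the distance from the centre restricted to `F` is a Morse function in the open
ball with at most `m` local maxima; `m = 0` is the definition of a ribbon surface. `SameType F F'`:
`F'` has the same boundary as `F` and is its image under a map which is a diffeomorphism near `F` and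
fixes the boundary. `BCls S K F`: `F` is such a surface, with boundary `K` and homeomorphic to `S`.

`II` is the second fundamental form and `H` the mean curvature vector (half of the trace of `II`)
with respect to the hyperbolic metric. A point is slack if there are tangent vectors `v`, `w`, not
both zero, with `|II(v, v) + II(w, w)| ≤ |v|² + |w|²`; the other points are tight. A point is slack
for instance if in some tangent direction the normal curvature vector has length at most one, or if
`|H| ≤ 1`. The number one is the curvature of the horospheres. `SlackSurf F`: the part of `F` in the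
open ball is covered by countably many parametrised pieces all of whose points are slack.
`MeanLeOne F`: the same with `|H| ≤ 1`. `surfExcess F` is the integral over the tight points of `F`,
with respect to the hyperbolic area, and over the circle of unit normal vectors `n`, of
`P⁻³ (H·n - 1)₊²`, where `P` is the Poisson kernel at the point at infinity of the horosphere with
inner normal `n`; `surfEnergy F` is the integral over the tight points of `exp (3 r) (|H| - 1)₊²`,
where `r` is the hyperbolic distance from the centre. (Both are least values over all countable
families of parametrised pieces which cover `F`.)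

1. For every set `F` the following are equivalent: there is a ribbon surface of the same type; there
   is a surface of the same type all of whose points are slack; there is one with `surfExcess` less
   than `2 π²`; there is one with `surfEnergy` less than `4 π`.
2. If `surfExcess F < 2 π² (m + 1)` or `surfEnergy F < 4 π (m + 1)` then a diffeomorphism of the ball
   minus a boundary point which is the identity on the sphere turns `F` into a surface on which the
   distance from the centre is a Morse function with at most `m` local maxima.
3. Let `S g` be the type of the surfaces of genus `g` and let `g` be the slice genus of `K`. Then the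
   following are equivalent: the ribbon genus of `K` is equal to its slice genus `g`; `K` bounds a
   surface of genus `g` all of whose points are slack; one with `surfExcess` less than `2 π²`; one
   with `surfEnergy` less than `4 π`. They hold if `K` bounds a surface of genus `g` with `|H| ≤ 1`.

The proof uses the theorems of helper503 and others on the total horospherical curvature
(`HorosphericalCurvature`, `CurvatureGap`, libraries `Y503.RB` and its parts; `HM/Cover.lean` repeats
the proof of `conv_surf` there with a stronger conclusion) and the pointwise lemmas of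
`MP_752436_gt.HyperbolicNormalCurvature`.
-/

set_option autoImplicit false

namespace Pool.Agent.Results.MP_177a0e_gt.HyperbolicSurfaces

open scoped ENNReal ContDiff
open Pool.Agent.Y503.RB Pool.Agent.Run7.h822.HM
open MeasureTheory Metric

theorem result :
    -- (1) surfaces of a given type
    (∀ F : Set E4, List.TFAE [
      ∃ F' : Set E4, PSurf F' ∧ SameType F F' ∧ (0 : E4) ∉ F' ∧ MorseSurf F' 0,
      ∃ F' : Set E4, PSurf F' ∧ SameType F F' ∧ SlackSurf F',
      ∃ F' : Set E4, PSurf F' ∧ SameType F F' ∧ surfExcess F' < ENNReal.ofReal (2 * Real.pi ^ 2),
      ∃ F' : Set E4, PSurf F' ∧ SameType F F' ∧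
        surfEnergy F' < ENNReal.ofReal (4 * Real.pi)]) ∧
    -- (2) the number of local maxima
    (∀ (F : Set E4) (_ : PSurf F) (m : ℕ),
      (surfExcess F < ENNReal.ofReal (2 * Real.pi ^ 2 * (m + 1)) ∨
        surfEnergy F < ENNReal.ofReal (4 * Real.pi * (m + 1))) →
      ∃ ξ : E4, ‖ξ‖ = 1 ∧ ξ ∉ F ∧
        (∀ x ∈ F, ContDiffAt ℝ ∞ (push ξ) x ∧ ContDiffAt ℝ ∞ (pull ξ) (push ξ x) ∧
          pull ξ (push ξ x) = x) ∧
        (∀ x ∈ F, ‖x‖ = 1 → push ξ x = x) ∧
        PSurf (push ξ '' F) ∧ push ξ '' F ∩ sphere 0 1 = F ∩ sphere 0 1 ∧
        MorseSurf (push ξ '' F) m) ∧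
    -- (3) the ribbon genus is equal to the slice genus
    (∀ (S : ℕ → Type) [∀ g, TopologicalSpace (S g)] (K : Set E4) (g : ℕ),
      IsLeast {g | ∃ F : Set E4, BCls (S g) K F} g →
      List.TFAE [
        IsLeast {g | ∃ F : Set E4, BCls (S g) K F ∧ (0 : E4) ∉ F ∧ MorseSurf F 0} g,
        ∃ F : Set E4, BCls (S g) K F ∧ SlackSurf F,
        ∃ F : Set E4, BCls (S g) K F ∧ surfExcess F < ENNReal.ofReal (2 * Real.pi ^ 2),
        ∃ F : Set E4, BCls (S g) K F ∧ surfEnergy F < ENNReal.ofReal (4 * Real.pi)] ∧
      ((∃ F : Set E4, BCls (S g) K F ∧ MeanLeOne F) →
        IsLeast {g | ∃ F : Set E4, BCls (S g) K F ∧ (0 : E4) ∉ F ∧ MorseSurf F 0} g)) := by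
  refine ⟨surf_tfae, fun F h m hor => ?_, fun S _ K g hg => ?_⟩
  · refine surfaces F h m ((totalCurv_le F).trans_lt ?_)
    rcases hor with h1 | h1
    · exact h1
    · exact excess_of_energy h1
  · have h1 : IsLeast {g | ∃ F : Set E4, BCls (S g) K F ∧ (0 : E4) ∉ F ∧ MorseSurf F 0} g ↔
        ∃ F : Set E4, BCls (S g) K F ∧ (0 : E4) ∉ F ∧ MorseSurf F 0 := by
      constructor
      · intro h
        exact h.1
      · intro h
        refine ⟨h, fun g' hg' => ?_⟩
        obtain ⟨F, hF, -⟩ := hg'
        exact hg.2 ⟨F, hF⟩
    have h2 := cls_tfae (S g) K
    rw [h1]
    refine ⟨h2, ?_⟩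
    rintro ⟨F, hF, hH⟩
    have h3 := h2.out 1 0
    exact h3.1 ⟨F, hF, slack_of_meanLeOne hH⟩

end Pool.Agent.Results.MP_177a0e_gt.HyperbolicSurfaces
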