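import Pool.Agent.Run7.h178.TF.Main
import Pool.Agent.Results.MP_177a0e_gt.NoBigonsInside

/-!
Ribbon genus and slice genus: surfaces with arbitrarily many triple points near the boundary, the
curves of whose preimage form two families of disjoint curves there. The movies here go from the link
into the 4-ball, so that births of components are the local maxima of the distance from the centre of
the 4-ball. `GMovie g n` is a movie with `g` handles and `n` births. The triple points of the
projection are the Reidemeister moves of type III. Every crossing belongs to a double curve of the
projection; the colours are names of classes of double curves. `curve k true` and `curve k false` are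
the names of the classes of curves in the surface lying over the double curves with colour `k`, in the
upper and in the lower sheet. Double curves with branch points have even colours, and for even `k`
these two classes are one.
-/

namespace Pool.Agent.Results.MP_177a0e_gt.TwoFamiliesInside

open Pool.Agent.Y468.SR Pool.Agent.Y874.TP Pool.Agent.R800.TP
open Pool.Agent.Results.MP_177a0e_gt.NoBigonsInside (GMovie)

/-- Let the knot with Gauss code `w` bound a surface in the 4-ball given by a movie which has `g`
handles and `n` births before the link `D`, whose components bound disjoint connected surfaces in the
part of the 4-ball inside `D`. Let `Z` be a set of classes of double curves of the projection of these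
surfaces, which do not meet `D` (`hZ`), such that through each triple point inside `D` there pass at
least two or none of the double curves (branches) with colours in `Z`; `T` is the list of the triples
of colours at the triple points of the second kind (of the double curves of the top and the middle,
the top and the bottom, and the middle and the bottom sheet). If a component is cut by a handle inside
`D`, let one of the two new components pass only through crossings with colours in `Z`. Suppose that
* the curves in the surfaces lying over the double curves with colours outside `Z` form two families
  (`F = true` and `F = false`), such that at the triple points in `T` only curves of different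
  families cross (`h₃`);
* the colours of two of the three double curves through a triple point in `T` determine the
  third one (`h₄`);
* there are no two triple points in `T` at which two double curves of the same two colours are,
  the one, the double curve of the top and the middle sheet and, the other, that of the top and the
  bottom sheet, but with exchanged colours; similarly for the double curves of the top and the bottom
  and of the middle and the bottom sheet (`h₅`).
Then the knot bounds a ribbon surface of genus `g + n`: neither the handles nor the births inside `D`
are counted, and there is no condition on the number of triple points. In particular, if the given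
surface has the slice genus and `n = 0`, then the ribbon genus of the knot equals its slice genus. -/
theorem result (w : List Pass) (g n : ℕ) (Z : ℕ → Prop) (D : Code) (T : List (ℕ × ℕ × ℕ))
    (F : ℕ × Bool → Bool) (h₁ : GMovie g n [(w, 0)] D) (hD : (D.map Prod.snd).Nodup)
    (h₂ : TMovie true Z D T) (hZ : ∀ p ∈ passes D, ¬Z (colour p.crossing))
    (h₃ : ∀ t ∈ T, F (curve t.1 true) ≠ F (curve t.2.1 true) ∧
      F (curve t.1 false) ≠ F (curve t.2.2 true) ∧ F (curve t.2.1 false) ≠ F (curve t.2.2 false))
    (h₄ : ∀ t ∈ T, ∀ t' ∈ T, (t.1 = t'.1 ∧ t.2.1 = t'.2.1) ∨ (t.1 = t'.1 ∧ t.2.2 = t'.2.2) ∨
      (t.2.1 = t'.2.1 ∧ t.2.2 = t'.2.2) → t = t')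
    (h₅ : ∀ t ∈ T, ∀ t' ∈ T, ¬(t.1 = t'.2.1 ∧ t.2.1 = t'.1) ∧ ¬(t.2.1 = t'.2.2 ∧ t.2.2 = t'.2.1)) :
    GMovie (g + n) 0 [(w, 0)] [] := by
  have hA : Pool.Agent.Y874.TP2.H178.Adm F fun t => t ∈ T := by
    refine ⟨h₃, fun t t' ht ht' => ⟨fun e1 e2 => ?_, fun e1 e2 => ?_, fun e1 e2 => ?_⟩,
      fun t t' ht ht' => ?_⟩
    · rw [h₄ t' ht' t ht (Or.inl ⟨e1, e2⟩)]
    · rw [h₄ t' ht' t ht (Or.inr (Or.inl ⟨e1, e2⟩))]
    · rw [h₄ t' ht' t ht (Or.inr (Or.inr ⟨e1, e2⟩))]
    · obtain ⟨k1, k2⟩ := h₅ t' ht' t ht
      exact ⟨k1, k2⟩
  have h3 : Movie true false D [] := Pool.Agent.Y874.TP2.H178.ribbon_of_families h₂ hZ hD hA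
  have h4 : GMovie 0 0 D [] :=
    GMovie.of_movie h3 (.refl [] (classical_empty (by simp [passes])))
  suffices h : ∀ {g n : ℕ} {A B E : Code}, GMovie g n A B → GMovie 0 0 B E → GMovie g n A E from
    (h h₁ h4).trade
  intro g n A B E h h'
  induction h with
  | refl D h => exact h'
  | step h hs _ ih => exact (ih h').step h hs
  | birth h b hb _ ih => exact GMovie.birth h b hb (ih h')
  | handle x y b h _ ih => exact GMovie.handle x y b h (ih h')

end Pool.Agent.Results.MP_177a0e_gt.TwoFamiliesInside
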